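import Pool.Agent.Helper3.TCM.Defs

/-!
# T9, K-stage: definitions and interface

`K : V → Option V`: `K v = some i` iff `v` lies in the dense set `K_i`, `K v = none` iff `v ∈ S`.
-/

set_option autoImplicit false

namespace Pool.TN

open Pool.TC Pool.TCM Finset
open scoped Classical

variable {V κ : Type} [Fintype V] [Fintype κ]

/-- the load of `v` caused by the vertices in `A` -/
noncomputable def ld (E : EC κ V) (A : V → Prop) (c : V → κ) (v : V) : ℕ :=
  (univ.filter (fun u => A u ∧ E.N (c u) u = v)).card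

/-- `c` is proper on `A` -/
def Prp (G : SimpleGraph V) (A : V → Prop) (c : V → κ) : Prop :=
  ∀ u v, A u → A v → G.Adj u v → c u ≠ c v

/-- the set `K_i` -/
noncomputable def Ki (K : V → Option V) (i : V) : Finset V := univ.filter (fun v => K v = some i)

/-- the vertices of `K_i` with the property `R` -/
noncomputable def Kr (K : V → Option V) (R : V → Prop) (i : V) : Finset V :=
  univ.filter (fun v => K v = some i ∧ R v)

/-- the colour `a` is blocked at `w` by the coloured vertices `A` -/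
def bl (G : SimpleGraph V) (A : V → Prop) (c : V → κ) (w : V) (a : κ) : Prop :=
  ∃ x, G.Adj w x ∧ A x ∧ c x = a

/-- the number of neighbours of `w` outside its set `K_i` -/
noncomputable def oo (G : SimpleGraph V) (K : V → Option V) (w : V) : ℕ :=
  ((nb G w).filter (fun v => K v ≠ K w)).card

/-- the number of neighbours in `S` -/
noncomputable def DS (G : SimpleGraph V) (K : V → Option V) (v : V) : ℕ :=
  ((nb G v).filter (fun w => K w = none)).card

/-- the regular graph with its edge colouring and its dense sets -/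
structure Sett (G : SimpleGraph V) (E : EC κ V) (K : V → Option V) (D B : ℕ) : Prop where
  reg : ∀ u, (nb G u).card = D
  col : Fintype.card κ = D + 1
  adj : ∀ a u, E.N a u ≠ u → G.Adj u (E.N a u)
  cov : ∀ u v, G.Adj u v → ∃ a, E.N a u = v
  inj : ∀ u a b, E.N a u = E.N b u → a = b
  out : ∀ w, K w ≠ none → oo G K w ≤ B
  non : ∀ w i, K w = some i → (univ.filter (fun v => K v = some i ∧ v ≠ w ∧ ¬ G.Adj w v)).card ≤ B

/-- the numerical conditions -/
structure Numb (D B : ℕ) (Lam : ℝ) : Prop where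
  B1 : 1 ≤ B
  L1 : 1 ≤ Lam
  DB : 10 ^ 13 * Lam * B ≤ D
  ex : 4 * Real.exp (-Lam) * ((3 * (D : ℝ) + 2) ^ 12 + 1) ≤ 1

/-- the coloured vertices after the pairs -/
def A1 (K : V → Option V) (pr : V → Prop) : V → Prop := fun v => K v = none ∨ pr v

/-- the rows: vertices of the dense sets outside the pairs -/
def Rw (K : V → Option V) (pr : V → Prop) : V → Prop := fun v => K v ≠ none ∧ ¬ pr v

/-- the colours not used by the pairs of `K_i` -/
noncomputable def Av (K : V → Option V) (pr : V → Prop) (c : V → κ) (i : V) : Finset κ :=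
  univ.filter (fun a => ∀ v, K v = some i → pr v → c v ≠ a)

/-- the problem colours of `K_i` -/
noncomputable def PC (G : SimpleGraph V) (E : EC κ V) (K : V → Option V) (D : ℕ) (pr : V → Prop)
    (c : V → κ) (i : V) : Finset κ :=
  (Av K pr c i).filter (fun a => D < 2000 * (univ.filter (fun w => K w = some i ∧ ¬ pr w ∧
    (bl G (A1 K pr) c w a ∨ K (E.N a w) ≠ some i))).card)

/-- [3a] The state after the pairs have been coloured. `Q` are the reserved colours. -/
structure St3a (G : SimpleGraph V) (E : EC κ V) (K : V → Option V) (D B : ℕ) (Q : Finset κ)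
    (pr : V → Prop) (c : V → κ) (lam : V → ℕ) : Prop where
  prK : ∀ v, pr v → K v ≠ none
  prp : Prp G (A1 K pr) c
  prQ : ∀ v, pr v → c v ∉ Q
  prR : ∀ v, pr v → K (E.N (c v) v) = K v
  prL : ∀ v, ld E pr c v ≤ 1
  prC : ∀ i, (Kr K pr i).card ≤ 8 * B
  cnt : ∀ i, (Ki K i).Nonempty → (Kr K (fun v => ¬ pr v) i).card + lam i = (Av K pr c i).card
  sum : ∀ i, ∑ w ∈ Kr K (fun v => ¬ pr v) i, oo G K w ≤
    (Kr K (fun v => ¬ pr v) i).card * lam i

/-- [3b] The rows `X` coloured with problem colours. -/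
structure St3b (G : SimpleGraph V) (E : EC κ V) (K : V → Option V) (D : ℕ) (pr : V → Prop)
    (c : V → κ) (lam : V → ℕ) (X : V → Prop) (c' : V → κ) : Prop where
  row : ∀ v, X v → K v ≠ none ∧ ¬ pr v
  old : ∀ v, A1 K pr v → c' v = c v
  pc : ∀ v i, X v → K v = some i → c' v ∈ PC G E K D pr c i
  prp : Prp G (fun v => A1 K pr v ∨ X v) c'
  inj : ∀ v w, X v → X w → K v = K w → c' v = c' w → v = w
  ld2 : ∀ v, ld E X c' v ≤ 2
  ld1 : ∀ v, (K v ≠ none ∨ D < 2 * DS G K v) → ld E X c' v ≤ 1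
  cnt : ∀ i, (PC G E K D pr c i).card ≤ (Kr K X i).card + lam i
  blk : ∀ i a, 2000 * (univ.filter (fun w => K w = some i ∧
    ∃ x, G.Adj w x ∧ K x ≠ some i ∧ X x ∧ c' x = a)).card ≤ D
  rgt : ∀ i, 2000 * (univ.filter (fun v => K v = some i ∧
    ∃ w, X w ∧ K w ≠ some i ∧ E.N (c' w) w = v)).card ≤ D

/-- the right vertices used by the pairs and by `X` -/
def Ld (E : EC κ V) (pr X : V → Prop) (c : V → κ) : V → Prop :=
  fun v => ∃ w, (pr w ∨ X w) ∧ E.N (c w) w = v

/-- [3c] The rows `Y` coloured with good colours (not reserved, not problem colours). -/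
structure St3c (G : SimpleGraph V) (E : EC κ V) (K : V → Option V) (D : ℕ) (Q : Finset κ)
    (pr : V → Prop) (c : V → κ) (X Y : V → Prop) (c' c'' : V → κ) : Prop where
  row : ∀ v, Y v → K v ≠ none ∧ ¬ pr v ∧ ¬ X v
  old : ∀ v, (A1 K pr v ∨ X v) → c'' v = c' v
  gd : ∀ v i, Y v → K v = some i → c'' v ∈ Av K pr c i ∧ c'' v ∉ PC G E K D pr c i ∧ c'' v ∉ Q
  prp : Prp G (fun v => A1 K pr v ∨ X v ∨ Y v) c''
  inj : ∀ v w, Y v → Y w → K v = K w → c'' v = c'' w → v = w
  all : ∀ i, (Ki K i).Nonempty → ∀ a ∈ Av K pr c i, a ∉ PC G E K D pr c i → a ∉ Q →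
    ∃ w, Y w ∧ K w = some i ∧ c'' w = a
  rK : ∀ v, Y v → K (E.N (c'' v) v) = K v ∧ ¬ Ld E pr X c' (E.N (c'' v) v)
  ld1 : ∀ v, ld E Y c'' v ≤ 1

/-- [3d] The final colouring. -/
structure St3d (G : SimpleGraph V) (E : EC κ V) (K : V → Option V) (pr X Y : V → Prop)
    (c' c'' c₃ : V → κ) : Prop where
  prp : Prp G (fun _ => True) c₃
  ldS : ∀ v, ld E (fun _ => True) c₃ v ≤ ld E (fun v => A1 K pr v ∨ X v ∨ Y v) c'' v +
    (if K v ≠ none ∧ ¬ Ld E pr X c' v then 1 else 0)

/-! ### The stages -/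

/-- 3a (helper32) -/
def St_3a : Prop := ∀ (V κ : Type) [Fintype V] [Fintype κ] (G : SimpleGraph V) (E : EC κ V)
  (K : V → Option V) (D B : ℕ) (Lam : ℝ) (Q : Finset κ) (c0 : V → κ), Sett G E K D B →
  Numb D B Lam → 25 * Q.card ≤ D → Prp G (fun v => K v = none) c0 →
  ∃ (pr : V → Prop) (c : V → κ) (lam : V → ℕ), (∀ v, K v = none → c v = c0 v) ∧
    St3a G E K D B Q pr c lam

/-- 3b (helper60) -/
def St_3b : Prop := ∀ (V κ : Type) [Fintype V] [Fintype κ] (G : SimpleGraph V) (E : EC κ V)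
  (K : V → Option V) (D B : ℕ) (Lam : ℝ) (Q : Finset κ) (pr : V → Prop) (c : V → κ)
  (lam : V → ℕ), Sett G E K D B → Numb D B Lam → St3a G E K D B Q pr c lam →
  ∃ (X : V → Prop) (c' : V → κ), St3b G E K D pr c lam X c'

/-- 3d (helper60) -/
def St_3d : Prop := ∀ (V κ : Type) [Fintype V] [Fintype κ] (G : SimpleGraph V) (E : EC κ V)
  (K : V → Option V) (D B : ℕ) (Lam : ℝ) (Q : Finset κ) (pr : V → Prop) (c : V → κ)
  (lam : V → ℕ) (X Y : V → Prop) (c' c'' : V → κ), Sett G E K D B → Numb D B Lam →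
  25 * Q.card ≤ D → D ≤ 26 * Q.card → St3a G E K D B Q pr c lam →
  St3b G E K D pr c lam X c' → St3c G E K D Q pr c X Y c' c'' →
  ∃ c₃ : V → κ, St3d G E K pr X Y c' c'' c₃

end Pool.TN
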